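import Mathlib
import Pool.Agent.H77.TO.Stm

set_option autoImplicit false

namespace Pool.Agent.H43.TO

open Finset

noncomputable def g (p : ℕ) : ℝ := ((p : ℝ) / (p - 1)) ^ 2 - 1

lemma g_nonneg {p : ℕ} (hp : 2 ≤ p) : 0 ≤ g p := by
  have h2 : (2 : ℝ) ≤ p := by exact_mod_cast hp
  have h1 : (1 : ℝ) ≤ (p : ℝ) / (p - 1) := by
    rw [le_div_iff₀ (by linarith)]; linarith
  unfold g
  nlinarith

lemma g_le {p : ℕ} (hp : 2 ≤ p) : g p / p ≤ 8 * ((p : ℝ) ^ 2)⁻¹ := by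
  have h2 : (2 : ℝ) ≤ p := by exact_mod_cast hp
  have h0 : (0 : ℝ) < p := by linarith
  have h3 : (0 : ℝ) < (p : ℝ) - 1 := by linarith
  have hg : g p = (2 * p - 1) / ((p : ℝ) - 1) ^ 2 := by
    unfold g; field_simp; ring
  rw [hg, div_div, ← div_eq_mul_inv, div_le_div_iff₀ (by positivity) (by positivity)]
  have h4 : (p : ℝ) ^ 2 ≤ 4 * ((p : ℝ) - 1) ^ 2 := by nlinarith
  have h5 : (2 * (p : ℝ) - 1) * (p : ℝ) ^ 2 ≤ (2 * p) * (4 * ((p : ℝ) - 1) ^ 2) := by
    apply mul_le_mul (by linarith) h4 (by positivity) (by positivity)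
  nlinarith

lemma ratio_eq (r : ℕ) (hr : 1 ≤ r) :
    ((r : ℝ) / (Nat.totient r : ℝ)) ^ 2 = ∏ p ∈ r.primeFactors, (1 + g p) := by
  have h := Nat.totient_eq_mul_prod_factors r
  have h' : (Nat.totient r : ℝ) = r * ∏ p ∈ r.primeFactors, (1 - (p : ℝ)⁻¹) := by
    have := congrArg (fun q : ℚ => (q : ℝ)) h
    push_cast at this
    exact this
  have hr0 : (r : ℝ) ≠ 0 := by positivity
  have h1 : ∀ p ∈ r.primeFactors, (1 + g p) = ((1 - (p : ℝ)⁻¹)⁻¹) ^ 2 := by
    intro p hp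
    have hp2 : 2 ≤ p := (Nat.prime_of_mem_primeFactors hp).two_le
    have h2 : (2 : ℝ) ≤ p := by exact_mod_cast hp2
    have h3 : (p : ℝ) - 1 ≠ 0 := by linarith
    have h4 : (p : ℝ) ≠ 0 := by linarith
    unfold g
    have : (1 - (p : ℝ)⁻¹)⁻¹ = (p : ℝ) / (p - 1) := by
      field_simp
    rw [this]; ring
  rw [Finset.prod_congr rfl h1, Finset.prod_pow, Finset.prod_inv_distrib, h']
  congr 1
  rw [div_mul_eq_div_div, div_self hr0, one_div]

lemma prod_bound (R : ℕ) :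
    ∏ p ∈ (range (R + 1)).filter Nat.Prime, (1 + g p / p) ≤ Real.exp 16 := by
  have h1 : ∀ p ∈ (range (R + 1)).filter Nat.Prime, 1 + g p / p ≤ Real.exp (8 * ((p : ℝ) ^ 2)⁻¹) := by
    intro p hp
    have hp2 := (Finset.mem_filter.1 hp).2.two_le
    have := g_le hp2
    have h3 := Real.add_one_le_exp (8 * ((p : ℝ) ^ 2)⁻¹)
    linarith
  have h2 : ∀ p ∈ (range (R + 1)).filter Nat.Prime, 0 ≤ 1 + g p / p := by
    intro p hp
    have hp2 := (Finset.mem_filter.1 hp).2.two_le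
    have := g_nonneg hp2
    positivity
  refine (Finset.prod_le_prod h2 h1).trans ?_
  rw [← Real.exp_sum]
  apply Real.exp_le_exp.2
  rw [← Finset.mul_sum]
  have h3 : ∑ p ∈ (range (R + 1)).filter Nat.Prime, ((p : ℝ) ^ 2)⁻¹ ≤
      ∑ p ∈ Ioo 0 (R + 1), ((p : ℝ) ^ 2)⁻¹ := by
    apply Finset.sum_le_sum_of_subset_of_nonneg
    · intro p hp
      have hp' := Finset.mem_filter.1 hp
      have := hp'.2.pos
      have h5 := Finset.mem_range.1 hp'.1
      exact Finset.mem_Ioo.2 ⟨this, h5⟩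
    · intro i _ _; positivity
  have h4 := sum_Ioo_inv_sq_le (α := ℝ) 0 (R + 1)
  norm_num at h4
  linarith

theorem avg : Pool.Agent.H77.TO.St_AVG := by
  refine ⟨Real.exp 16, Real.exp_pos _, fun R => ?_⟩
  set P := (range (R + 1)).filter Nat.Prime with hP
  have hsub : ∀ r ∈ Icc 1 R, r.primeFactors ⊆ P := by
    intro r hr p hp
    have hr' := Finset.mem_Icc.1 hr
    have h1 := Nat.le_of_mem_primeFactors hp
    exact Finset.mem_filter.2 ⟨Finset.mem_range.2 (by omega), Nat.prime_of_mem_primeFactors hp⟩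
  have h1 : ∀ r ∈ Icc 1 R, ((r : ℝ) / (Nat.totient r : ℝ)) ^ 2 =
      ∑ S ∈ P.powerset, if S ⊆ r.primeFactors then ∏ p ∈ S, g p else 0 := by
    intro r hr
    rw [ratio_eq r (Finset.mem_Icc.1 hr).1, Finset.prod_one_add, ← Finset.sum_filter]
    apply Finset.sum_congr _ (fun _ _ => rfl)
    ext S
    simp only [Finset.mem_powerset, Finset.mem_filter]
    exact ⟨fun h => ⟨h.trans (hsub r hr), h⟩, fun h => h.2⟩
  rw [Finset.sum_congr rfl h1, Finset.sum_comm]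
  have hS : ∀ S ∈ P.powerset, ∑ r ∈ Icc 1 R, (if S ⊆ r.primeFactors then ∏ p ∈ S, g p else 0) ≤
      R * ∏ p ∈ S, (g p / p) := by
    intro S hS
    have hSP := Finset.mem_powerset.1 hS
    have hg0 : 0 ≤ ∏ p ∈ S, g p := by
      apply Finset.prod_nonneg
      intro p hp
      exact g_nonneg (Finset.mem_filter.1 (hSP hp)).2.two_le
    have hpos : 0 < ∏ p ∈ S, p := by
      apply Finset.prod_pos
      intro p hp
      exact (Finset.mem_filter.1 (hSP hp)).2.pos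
    rw [← Finset.sum_filter, Finset.sum_const, nsmul_eq_mul]
    have hc : ((Icc 1 R).filter (fun r => S ⊆ r.primeFactors)).card ≤ R / ∏ p ∈ S, p := by
      rw [← Nat.Ioc_filter_dvd_card_eq_div]
      apply Finset.card_le_card
      intro r hr
      have hr' := Finset.mem_filter.1 hr
      have hr1 := Finset.mem_Icc.1 hr'.1
      refine Finset.mem_filter.2 ⟨Finset.mem_Ioc.2 ⟨hr1.1, hr1.2⟩, ?_⟩
      exact (Finset.prod_dvd_prod_of_subset _ _ _ hr'.2).trans (Nat.prod_primeFactors_dvd r)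
    have hc' : (((Icc 1 R).filter (fun r => S ⊆ r.primeFactors)).card : ℝ) ≤ R / ∏ p ∈ S, (p : ℝ) := by
      calc (((Icc 1 R).filter (fun r => S ⊆ r.primeFactors)).card : ℝ) ≤ ((R / ∏ p ∈ S, p : ℕ) : ℝ) := by
            exact_mod_cast hc
        _ ≤ (R : ℝ) / ((∏ p ∈ S, p : ℕ) : ℝ) := Nat.cast_div_le
        _ = R / ∏ p ∈ S, (p : ℝ) := by push_cast; rfl
    calc _ ≤ (R / ∏ p ∈ S, (p : ℝ)) * ∏ p ∈ S, g p := mul_le_mul_of_nonneg_right hc' hg0
      _ = R * ∏ p ∈ S, (g p / p) := by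
        rw [Finset.prod_div_distrib]; ring
  refine (Finset.sum_le_sum hS).trans ?_
  rw [← Finset.mul_sum, ← Finset.prod_one_add, mul_comm]
  exact mul_le_mul_of_nonneg_right (prod_bound R) (by positivity)

end Pool.Agent.H43.TO
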